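import Pool.Agent.Helper20.KP.StH

/-!
# Project KP, module HCO (helper45)
-/

set_option autoImplicit false

namespace Pool.Agent.Helper45.KP

open MeasureTheory Filter Pool.Agent.Helper52.KP Pool.Agent.Helper20.KP
open scoped Topology

lemma hco_diff {E ι : Type*} [NormedAddCommGroup E] [NormedSpace ℂ E] (s : Finset ι)
    (g : ι → E → ℂ) (y : E) (h : ∀ i ∈ s, DifferentiableAt ℂ (g i) y) :
    ∀ k, DifferentiableAt ℂ
      (fun z => (∏ i ∈ s, (Polynomial.X - Polynomial.C (g i z))).coeff k) y := by
  classical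
  induction s using Finset.induction_on with
  | empty => intro k; simp
  | insert a s ha ih =>
    intro k
    have ih' := ih (fun i hi => h i (Finset.mem_insert_of_mem hi))
    have hga := h a (Finset.mem_insert_self a s)
    cases k with
    | zero =>
      have : (fun z => (∏ i ∈ insert a s, (Polynomial.X - Polynomial.C (g i z))).coeff 0) =
          fun z => - (g a z) * (∏ i ∈ s, (Polynomial.X - Polynomial.C (g i z))).coeff 0 := by
        funext z
        rw [Finset.prod_insert ha, Polynomial.mul_coeff_zero]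
        simp
      rw [this]
      exact hga.neg.mul (ih' 0)
    | succ k =>
      have : (fun z => (∏ i ∈ insert a s, (Polynomial.X - Polynomial.C (g i z))).coeff (k+1)) =
          fun z => (∏ i ∈ s, (Polynomial.X - Polynomial.C (g i z))).coeff k -
            (g a z) * (∏ i ∈ s, (Polynomial.X - Polynomial.C (g i z))).coeff (k+1) := by
        funext z
        rw [Finset.prod_insert ha, sub_mul, Polynomial.coeff_sub, Polynomial.coeff_X_mul,
          Polynomial.coeff_C_mul]
      rw [this]
      exact (ih' k).sub (hga.mul (ih' (k+1)))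

lemma hco_monic {n : ℕ} (a : Fin n → ℂ) :
    (∏ i : Fin n, (Polynomial.X - Polynomial.C (a i))).Monic :=
  Polynomial.monic_prod_of_monic _ _ (fun i _ => Polynomial.monic_X_sub_C (a i))

lemma hco_deg {n : ℕ} (a : Fin n → ℂ) :
    (∏ i : Fin n, (Polynomial.X - Polynomial.C (a i))).natDegree = n := by
  rw [Polynomial.natDegree_prod_of_monic _ _ (fun i _ => Polynomial.monic_X_sub_C (a i))]
  simp

lemma hco_scale {n : ℕ} (a : Fin n → ℂ) (t : ℂ) (ht : t ≠ 0) (i : ℕ) (hi : i ≤ n) :
    (∏ j : Fin n, (Polynomial.X - Polynomial.C (t * a j))).coeff i =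
      t ^ (n - i) * (∏ j : Fin n, (Polynomial.X - Polynomial.C (a j))).coeff i := by
  have h1 : (∏ j : Fin n, (Polynomial.X - Polynomial.C (t * a j))).comp
      (Polynomial.C t * Polynomial.X) =
      Polynomial.C (t ^ n) * ∏ j : Fin n, (Polynomial.X - Polynomial.C (a j)) := by
    rw [Polynomial.prod_comp]
    have : ∀ j : Fin n, (Polynomial.X - Polynomial.C (t * a j)).comp
        (Polynomial.C t * Polynomial.X) =
        Polynomial.C t * (Polynomial.X - Polynomial.C (a j)) := by
      intro j
      simp [mul_sub]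
    rw [Finset.prod_congr rfl (fun j _ => this j), Finset.prod_mul_distrib]
    simp
  have h2 := congrArg (fun p => Polynomial.coeff p i) h1
  simp only [Polynomial.comp_C_mul_X_coeff, Polynomial.coeff_C_mul] at h2
  have h3 : t ^ i ≠ 0 := pow_ne_zero _ ht
  apply mul_right_cancel₀ h3
  rw [h2]
  have : t ^ n = t ^ (n - i) * t ^ i := by rw [← pow_add, Nat.sub_add_cancel hi]
  rw [this]; ring

lemma hco_bound {n : ℕ} (a : Fin n → ℂ) (B : ℝ) (hB : ∀ i, ‖a i‖ ≤ B) (i : ℕ)
    (hB0 : 0 ≤ B) :
    ‖(∏ j : Fin n, (Polynomial.X - Polynomial.C (a j))).coeff i‖ ≤ 2 ^ n * B ^ (n - i) := by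
  have h1 := Polynomial.coeff_le_of_roots_le (F := ℂ) (K := ℂ)
    (p := ∏ j : Fin n, (Polynomial.X - Polynomial.C (a j))) (f := RingHom.id ℂ) (B := B) i
    (hco_monic a) (by simpa using IsAlgClosed.splits _) (by
      intro z hz
      rw [Polynomial.map_id] at hz
      rw [Polynomial.mem_roots (hco_monic a).ne_zero, Polynomial.IsRoot.def,
        Polynomial.eval_prod, Finset.prod_eq_zero_iff] at hz
      obtain ⟨j, _, hj⟩ := hz
      simp only [Polynomial.eval_sub, Polynomial.eval_X, Polynomial.eval_C] at hj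
      rw [sub_eq_zero.mp hj]
      exact hB j)
  rw [Polynomial.map_id, hco_deg] at h1
  refine h1.trans ?_
  rw [mul_comm]
  refine mul_le_mul_of_nonneg_right ?_ (pow_nonneg hB0 _)
  have : n.choose i ≤ 2 ^ n := Nat.choose_le_two_pow n i
  exact_mod_cast this

/-- representation of the product over the fibre -/
lemma hco_rep {D : OD} {Y : D.LM} {rd : ℕ} (F : (Fin D.N → ℂ) → ℂ) (y : Fin D.m → ℂ)
    (z : Fin rd → (Fin D.N → ℂ)) (hz : Function.Injective z)
    (hf : D.fb Y y = Set.range z) (i : ℕ) :
    D.co Y F i y = (∏ j : Fin rd, (Polynomial.X - Polynomial.C (F (z j)))).coeff i := by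
  unfold OD.co
  rw [hf, finprod_mem_range hz, finprod_eq_prod_of_fintype]

theorem hHCO : StHCO := by
  intro D hD Y Dc rd hFB F hF
  refine ⟨?_, ?_, ?_⟩
  · intro i y₀ hy₀
    obtain ⟨ρ, hρ, ζ, hball, hdif, hζ⟩ := hFB.loc y₀ hy₀
    apply DifferentiableAt.differentiableWithinAt
    have hg : ∀ j ∈ (Finset.univ : Finset (Fin rd)),
        DifferentiableAt ℂ (fun y => F (ζ j y)) y₀ := by
      intro j _
      have h1 := hF D.m (Metric.ball y₀ ρ) (ζ j) Metric.isOpen_ball (hdif j) (by
        intro y hy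
        have h2 := (hζ y hy).2
        have h3 : ζ j y ∈ D.fb Y y := by rw [h2]; exact ⟨j, rfl⟩
        exact h3.1)
      exact h1.differentiableAt (Metric.ball_mem_nhds y₀ hρ)
    have h2 := hco_diff Finset.univ (fun j y => F (ζ j y)) y₀ hg i
    refine h2.congr_of_eventuallyEq ?_
    filter_upwards [Metric.ball_mem_nhds y₀ hρ] with y hy
    exact hco_rep F y (fun j => ζ j y) (hζ y hy).1 (hζ y hy).2 i
  · intro y hy
    obtain ⟨ρ, hρ, ζ, hball, hdif, hζ⟩ := hFB.loc y hy
    obtain ⟨hinj, hrange⟩ := hζ y (Metric.mem_ball_self hρ)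
    have hrep := fun i => hco_rep (D := D) (Y := Y) F y (fun j => ζ j y) hinj hrange i
    refine ⟨?_, ?_, ?_, ?_, ?_, ?_⟩
    · rw [hrange]; exact Set.finite_range _
    · rw [hrange, ← Set.image_univ, Set.ncard_image_of_injective _ hinj, Set.ncard_univ]
      simp
    · rw [hrep]
      have h1 := (hco_monic (fun j => F (ζ j y))).coeff_natDegree
      rwa [hco_deg] at h1
    · rw [hrep]
      have h1 := Polynomial.prod_X_sub_C_coeff_card_pred (Finset.univ : Finset (Fin rd))
        (fun j => F (ζ j y)) (by simpa using hFB.pos)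
      rw [Finset.card_univ, Fintype.card_fin] at h1
      rw [h1, neg_neg]
      unfold OD.tc
      rw [hrange, finsum_mem_range hinj, finsum_eq_sum_of_fintype]
    · intro x hx
      rw [hrange] at hx
      obtain ⟨j, rfl⟩ := hx
      simp_rw [hrep]
      rw [← Polynomial.eval_eq_sum_range' (by rw [hco_deg]; omega), Polynomial.eval_prod]
      apply Finset.prod_eq_zero (Finset.mem_univ j)
      simp
    · intro B hB i hi
      rw [hrep]
      have hB' : ∀ j : Fin rd, ‖F (ζ j y)‖ ≤ B := by
        intro j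
        apply hB
        rw [hrange]; exact ⟨j, rfl⟩
      exact hco_bound _ B hB' i ((norm_nonneg _).trans (hB' ⟨0, hFB.pos⟩))
  · intro k hk y hy c hc i hi
    obtain ⟨ρ, hρ, ζ, hball, hdif, hζ⟩ := hFB.loc y hy
    obtain ⟨hinj, hrange⟩ := hζ y (Metric.mem_ball_self hρ)
    have hfib : D.fb Y (c • y) = Set.range (fun j => c • ζ j y) := by
      ext x
      constructor
      · rintro ⟨hxO, hxY⟩
        have h1 : c⁻¹ • x ∈ D.fb Y y := by
          refine ⟨hD.cone x hxO _ (inv_ne_zero hc), ?_⟩
          rw [map_smul, hxY, smul_smul, inv_mul_cancel₀ hc, one_smul]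
        rw [hrange] at h1
        obtain ⟨j, hj⟩ := h1
        refine ⟨j, ?_⟩
        simp only at hj ⊢
        rw [hj, smul_smul, mul_inv_cancel₀ hc, one_smul]
      · rintro ⟨j, rfl⟩
        have h1 : ζ j y ∈ D.fb Y y := by rw [hrange]; exact ⟨j, rfl⟩
        refine ⟨hD.cone _ h1.1 c hc, ?_⟩
        simp only
        rw [map_smul, h1.2]
    have hinj' : Function.Injective (fun j => c • ζ j y) := by
      intro j j' h
      exact hinj (smul_right_injective _ hc h)
    rw [hco_rep F (c • y) (fun j => c • ζ j y) hinj' hfib i,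
      hco_rep F y (fun j => ζ j y) hinj hrange i]
    have h2 : ∀ j : Fin rd, F (c • ζ j y) = c ^ k * F (ζ j y) := by
      intro j
      have h1 : ζ j y ∈ D.fb Y y := by rw [hrange]; exact ⟨j, rfl⟩
      exact hk _ h1.1 c hc
    simp_rw [h2]
    rw [hco_scale _ _ (pow_ne_zero k hc) i hi, ← pow_mul]

end Pool.Agent.Helper45.KP
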